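import Mathlib

/-! Arithmetic of the bound `g m k = ∑_{i < min m k} C(m + k - 1 - 2 i, 2)`. -/

namespace Pool.Agent.H67.TCT

open Finset

/-- the value of the extremal problem -/
def g (m k : ℕ) : ℕ := ∑ i ∈ range (min m k), (m + k - 1 - 2 * i).choose 2

/-- the level sum -/
def lev (m k : ℕ) : ℕ := ∑ J ∈ Ico 1 (max m k), (m * k - min J m * min J k)

theorem g_comm (m k : ℕ) : g m k = g k m := by
  unfold g
  rw [min_comm, add_comm m k]

theorem lev_comm (m k : ℕ) : lev m k = lev k m := by
  unfold lev
  rw [max_comm]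
  refine sum_congr rfl fun J _ => ?_
  rw [mul_comm m k, mul_comm (min J m)]

theorem g_diag_succ (m : ℕ) : g (m + 1) (m + 1) = g m m + m * (2 * m + 1) := by
  unfold g
  simp only [min_self]
  rw [sum_range_succ']
  have h1 : (m + 1 + (m + 1) - 1 - 2 * 0).choose 2 = m * (2 * m + 1) := by
    have : m + 1 + (m + 1) - 1 - 2 * 0 = 2 * m + 1 := by omega
    rw [this, Nat.choose_two_right]
    have : (2 * m + 1) * (2 * m + 1 - 1) = 2 * (m * (2 * m + 1)) := by
      simp only [Nat.add_sub_cancel]; ring
    rw [this]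
    omega
  rw [h1]
  congr 1
  refine sum_congr rfl fun i _ => ?_
  congr 1
  omega

theorem lev_diag_succ (m : ℕ) : lev (m + 1) (m + 1) = lev m m + m * (2 * m + 1) := by
  unfold lev
  simp only [max_self]
  rcases Nat.eq_zero_or_pos m with rfl | hm
  · simp
  rw [Finset.sum_Ico_succ_top (by omega)]
  have h1 : ∑ J ∈ Ico 1 m, ((m + 1) * (m + 1) - min J (m + 1) * min J (m + 1)) =
      ∑ J ∈ Ico 1 m, ((m * m - min J m * min J m) + (2 * m + 1)) := by
    refine sum_congr rfl fun J hJ => ?_
    rw [mem_Ico] at hJ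
    rw [min_eq_left (by omega : J ≤ m + 1), min_eq_left (by omega : J ≤ m)]
    have : J * J ≤ m * m := Nat.mul_le_mul (by omega) (by omega)
    have e : (m + 1) * (m + 1) = m * m + (2 * m + 1) := by ring
    omega
  rw [h1, sum_add_distrib, sum_const, Nat.card_Ico, smul_eq_mul]
  rw [min_eq_left (by omega : m ≤ m + 1)]
  have e : (m + 1) * (m + 1) = m * m + (2 * m + 1) := by ring
  have e2 : (m + 1) * (m + 1) - m * m = 2 * m + 1 := by omega
  rw [e2]
  obtain ⟨n, rfl⟩ : ∃ n, m = n + 1 := ⟨m - 1, by omega⟩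
  simp only [Nat.add_sub_cancel]
  ring

theorem g_diag (m : ℕ) : g m m = lev m m := by
  induction m with
  | zero => rfl
  | succ m ih => rw [g_diag_succ, lev_diag_succ, ih]

theorem sum_odd_aux (m k : ℕ) (h : m ≤ k) :
    ∑ i ∈ range m, (m + k - 1 - 2 * i) = m * k := by
  obtain ⟨d, rfl⟩ := Nat.exists_eq_add_of_le h
  clear h
  induction m with
  | zero => simp
  | succ m ih =>
    rw [sum_range_succ']
    have : ∑ i ∈ range m, (m + 1 + (m + 1 + d) - 1 - 2 * (i + 1)) =
        ∑ i ∈ range m, (m + (m + d) - 1 - 2 * i) := by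
      refine sum_congr rfl fun i _ => ?_
      omega
    rw [this, ih]
    have e : m + 1 + (m + 1 + d) - 1 - 2 * 0 = 2 * m + 1 + d := by omega
    rw [e]
    ring

theorem g_succ_right (m k : ℕ) (h : m ≤ k) : g m (k + 1) = g m k + m * k := by
  unfold g
  rw [min_eq_left (by omega : m ≤ k + 1), min_eq_left h, ← sum_odd_aux m k h,
    ← sum_add_distrib]
  refine sum_congr rfl fun i hi => ?_
  rw [mem_range] at hi
  obtain ⟨n, hn⟩ : ∃ n, m + k - 1 - 2 * i = n := ⟨_, rfl⟩
  have hn' : m + (k + 1) - 1 - 2 * i = n + 1 := by omega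
  rw [hn, hn', Nat.choose_succ_succ' n 1, Nat.choose_one_right, add_comm]

theorem lev_succ_right (m k : ℕ) (h : m ≤ k) : lev m (k + 1) = lev m k + m * k := by
  unfold lev
  rw [max_eq_right (by omega : m ≤ k + 1), max_eq_right h]
  rcases Nat.eq_zero_or_pos k with rfl | hk
  · simp
  rw [Finset.sum_Ico_succ_top (by omega)]
  have h1 : ∑ J ∈ Ico 1 k, (m * (k + 1) - min J m * min J (k + 1)) =
      ∑ J ∈ Ico 1 k, ((m * k - min J m * min J k) + m) := by
    refine sum_congr rfl fun J hJ => ?_
    rw [mem_Ico] at hJ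
    rw [min_eq_left (by omega : J ≤ k + 1), min_eq_left (by omega : J ≤ k)]
    have : min J m * J ≤ m * k := Nat.mul_le_mul (min_le_right _ _) (by omega)
    have e : m * (k + 1) = m * k + m := by ring
    omega
  rw [h1, sum_add_distrib, sum_const, Nat.card_Ico, smul_eq_mul]
  rw [min_eq_left (by omega : k ≤ k + 1), min_eq_right h]
  have e2 : m * (k + 1) - m * k = m := by
    have e : m * (k + 1) = m * k + m := by ring
    omega
  rw [e2]
  obtain ⟨n, rfl⟩ : ∃ n, k = n + 1 := ⟨k - 1, by omega⟩
  simp only [Nat.add_sub_cancel]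
  ring

theorem g_eq_lev_of_le (m k : ℕ) (h : m ≤ k) : g m k = lev m k := by
  obtain ⟨d, rfl⟩ := Nat.exists_eq_add_of_le h
  clear h
  induction d with
  | zero => exact g_diag m
  | succ d ih =>
    rw [← add_assoc, g_succ_right _ _ (by omega), lev_succ_right _ _ (by omega), ih]

theorem g_eq_lev (m k : ℕ) : g m k = lev m k := by
  rcases Nat.le_total m k with h | h
  · exact g_eq_lev_of_le m k h
  · rw [g_comm, lev_comm]
    exact g_eq_lev_of_le k m h

/-- the value in terms of the linear order construction -/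
def con (m k : ℕ) : ℕ := ∑ i ∈ range m, i * min i k + ∑ i ∈ range k, min (i + 1) m * i

theorem con_diag_succ (m : ℕ) : con (m + 1) (m + 1) = con m m + m * (2 * m + 1) := by
  unfold con
  rw [sum_range_succ, sum_range_succ]
  have h1 : ∑ i ∈ range m, i * min i (m + 1) = ∑ i ∈ range m, i * min i m := by
    refine sum_congr rfl fun i hi => ?_
    rw [mem_range] at hi
    rw [min_eq_left (by omega), min_eq_left (by omega)]
  have h2 : ∑ i ∈ range m, min (i + 1) (m + 1) * i = ∑ i ∈ range m, min (i + 1) m * i := by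
    refine sum_congr rfl fun i hi => ?_
    rw [mem_range] at hi
    rw [min_eq_left (by omega), min_eq_left (by omega)]
  rw [h1, h2, min_eq_left (by omega : m ≤ m + 1), min_self]
  ring

theorem con_succ_right (m k : ℕ) (h : m ≤ k) : con m (k + 1) = con m k + m * k := by
  unfold con
  rw [sum_range_succ (fun i => min (i + 1) m * i) k, min_eq_right (by omega : m ≤ k + 1)]
  have h1 : ∑ i ∈ range m, i * min i (k + 1) = ∑ i ∈ range m, i * min i k := by
    refine sum_congr rfl fun i hi => ?_
    rw [mem_range] at hi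
    rw [min_eq_left (by omega), min_eq_left (by omega)]
  rw [h1]
  ring

theorem con_succ_left (m k : ℕ) (h : k ≤ m) : con (m + 1) k = con m k + m * k := by
  unfold con
  rw [sum_range_succ (fun i => i * min i k) m, min_eq_right h]
  have h1 : ∑ i ∈ range k, min (i + 1) (m + 1) * i = ∑ i ∈ range k, min (i + 1) m * i := by
    refine sum_congr rfl fun i hi => ?_
    rw [mem_range] at hi
    rw [min_eq_left (by omega), min_eq_left (by omega)]
  rw [h1]
  ring

theorem con_diag (m : ℕ) : con m m = g m m := by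
  induction m with
  | zero => rfl
  | succ m ih => rw [con_diag_succ, g_diag_succ, ih]

theorem con_eq_g (m k : ℕ) : con m k = g m k := by
  rcases Nat.le_total m k with h | h
  · obtain ⟨d, rfl⟩ := Nat.exists_eq_add_of_le h
    clear h
    induction d with
    | zero => exact con_diag m
    | succ d ih =>
      rw [← add_assoc, con_succ_right _ _ (by omega), g_succ_right _ _ (by omega), ih]
  · obtain ⟨d, rfl⟩ := Nat.exists_eq_add_of_le h
    clear h
    induction d with
    | zero => exact con_diag k
    | succ d ih =>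
      rw [← add_assoc, con_succ_left _ _ (by omega), g_comm, g_succ_right _ _ (by omega),
        ih, g_comm, mul_comm]

end Pool.Agent.H67.TCT
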