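import Mathlib
import Pool.Agent.H67.TCT.Arith

/-! The extremal construction: a linear order in which the two classes alternate. -/

namespace Pool.Agent.H67.TCT

open Finset

/-- the position of a vertex in the alternating linear order -/
def key (m k : ℕ) : Fin m ⊕ Fin k → ℕ := Sum.elim (fun i => 2 * i.1) (fun j => 2 * j.1 + 1)

theorem key_inj (m k : ℕ) : Function.Injective (key m k) := by
  rintro (x | x) (y | y) h
  · simp only [key, Sum.elim_inl] at h
    congr 1
    exact Fin.ext (by omega)
  · simp only [key, Sum.elim_inl, Sum.elim_inr] at h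
    omega
  · simp only [key, Sum.elim_inl, Sum.elim_inr] at h
    omega
  · simp only [key, Sum.elim_inr] at h
    congr 1
    exact Fin.ext (by omega)

/-- index set of the edges: top vertex, and one lower vertex in each class -/
def idx (m k : ℕ) : Finset ((Fin m ⊕ Fin k) × Fin m × Fin k) :=
  univ.filter (fun w => key m k (Sum.inl w.2.1) < key m k w.1 ∧
    key m k (Sum.inr w.2.2) < key m k w.1)

/-- the extremal 3-graph -/
def conH (m k : ℕ) : Finset (Finset (Fin m ⊕ Fin k)) :=
  (idx m k).image (fun w => {w.1, Sum.inl w.2.1, Sum.inr w.2.2})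

/-- the class `A` of the construction -/
def conA (m k : ℕ) : Finset (Fin m ⊕ Fin k) := univ.image Sum.inl

theorem mem_conA (m k : ℕ) (x : Fin m ⊕ Fin k) : x ∈ conA m k ↔ ∃ i, x = Sum.inl i := by
  simp only [conA, mem_image, mem_univ, true_and]
  exact ⟨fun ⟨i, hi⟩ => ⟨i, hi.symm⟩, fun ⟨i, hi⟩ => ⟨i, hi.symm⟩⟩

theorem inr_notMem_conA (m k : ℕ) (j : Fin k) : (Sum.inr j : Fin m ⊕ Fin k) ∉ conA m k := by
  rw [mem_conA]
  rintro ⟨i, hi⟩
  exact Sum.inr_ne_inl hi

theorem card_conA (m k : ℕ) : (conA m k).card = m := by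
  rw [conA, card_image_of_injective _ Sum.inl_injective, card_univ, Fintype.card_fin]

theorem card_conA_compl (m k : ℕ) : (conA m k)ᶜ.card = k := by
  rw [card_compl, card_conA, Fintype.card_sum, Fintype.card_fin, Fintype.card_fin]
  omega

theorem conH_twoColoured (m k : ℕ) : ∀ e ∈ conH m k, e.card = 3 ∧
    (∃ x ∈ e, x ∈ conA m k) ∧ (∃ x ∈ e, x ∉ conA m k) := by
  intro e he
  simp only [conH, mem_image, idx, mem_filter, mem_univ, true_and] at he
  obtain ⟨⟨z, x, y⟩, ⟨h1, h2⟩, rfl⟩ := he
  simp only at h1 h2 ⊢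
  refine ⟨?_, ⟨Sum.inl x, by simp, by rw [mem_conA]; exact ⟨x, rfl⟩⟩,
    ⟨Sum.inr y, by simp, inr_notMem_conA m k y⟩⟩
  rw [card_eq_three]
  refine ⟨z, Sum.inl x, Sum.inr y, ?_, ?_, Sum.inl_ne_inr, rfl⟩
  · rintro rfl
    omega
  · rintro rfl
    omega

theorem conH_inj (m k : ℕ) : Set.InjOn
    (fun w : (Fin m ⊕ Fin k) × Fin m × Fin k =>
      ({w.1, Sum.inl w.2.1, Sum.inr w.2.2} : Finset (Fin m ⊕ Fin k))) (idx m k) := by
  rintro ⟨z, x, y⟩ hw ⟨z', x', y'⟩ hw' heq
  simp only [idx, coe_filter, mem_univ, true_and, Set.mem_ofPred_eq] at hw hw'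
  simp only at heq
  have hzz : z = z' := by
    have h1 : z ∈ ({z', Sum.inl x', Sum.inr y'} : Finset (Fin m ⊕ Fin k)) := by
      rw [← heq]; simp
    have h2 : z' ∈ ({z, Sum.inl x, Sum.inr y} : Finset (Fin m ⊕ Fin k)) := by
      rw [heq]; simp
    simp only [mem_insert, mem_singleton] at h1 h2
    rcases h1 with h1 | h1 | h1
    · exact h1
    · exfalso
      rw [← h1] at hw'
      rcases h2 with h2 | h2 | h2
      · rw [h2] at hw'
        omega
      · rw [← h2] at hw
        omega
      · rw [← h2] at hw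
        omega
    · exfalso
      rw [← h1] at hw'
      rcases h2 with h2 | h2 | h2
      · rw [h2] at hw'
        omega
      · rw [← h2] at hw
        omega
      · rw [← h2] at hw
        omega
  subst hzz
  have hx : (Sum.inl x : Fin m ⊕ Fin k) ∈
      ({z, Sum.inl x', Sum.inr y'} : Finset (Fin m ⊕ Fin k)) := by
    rw [← heq]; simp
  have hy : (Sum.inr y : Fin m ⊕ Fin k) ∈
      ({z, Sum.inl x', Sum.inr y'} : Finset (Fin m ⊕ Fin k)) := by
    rw [← heq]; simp
  simp only [mem_insert, mem_singleton, reduceCtorEq, or_false, false_or, Sum.inl.injEq,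
    Sum.inr.injEq] at hx hy
  have hx' : x = x' := by
    rcases hx with hx | hx
    · rw [hx] at hw
      omega
    · exact hx
  have hy' : y = y' := by
    rcases hy with hy | hy
    · rw [hy] at hw
      omega
    · exact hy
  rw [hx', hy']

theorem card_filter_lt_fin (m i : ℕ) : (univ.filter (fun x : Fin m => x.1 < i)).card = min i m := by
  have h : (univ.filter (fun x : Fin m => x.1 < i)).map Fin.valEmbedding = range (min i m) := by
    ext j
    simp only [mem_map, mem_filter, mem_univ, true_and, Fin.valEmbedding_apply, mem_range,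
      lt_min_iff]
    constructor
    · rintro ⟨x, hx, rfl⟩
      exact ⟨hx, x.2⟩
    · rintro ⟨h1, h2⟩
      exact ⟨⟨j, h2⟩, h1, rfl⟩
  rw [← card_map Fin.valEmbedding, h, card_range]

theorem card_idx (m k : ℕ) : (idx m k).card = con m k := by
  have h1 : (idx m k).card = ∑ z : Fin m ⊕ Fin k,
      (univ.filter (fun x : Fin m => key m k (Sum.inl x) < key m k z)).card *
      (univ.filter (fun y : Fin k => key m k (Sum.inr y) < key m k z)).card := by
    rw [card_eq_sum_card_fiberwise (f := Prod.fst) (t := univ) (by intro x _; simp)]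
    refine sum_congr rfl fun z _ => ?_
    rw [← card_product]
    refine card_bij' (fun w _ => w.2) (fun w _ => (z, w)) ?_ ?_ ?_ ?_
    · rintro ⟨z', x, y⟩ h
      simp only [idx, mem_filter, mem_univ, true_and] at h
      simp only [mem_product, mem_filter, mem_univ, true_and]
      obtain ⟨h, rfl⟩ := h
      exact h
    · rintro ⟨x, y⟩ h
      simp only [mem_product, mem_filter, mem_univ, true_and] at h
      simp only [idx, mem_filter, mem_univ, true_and, and_true]
      exact h
    · rintro ⟨z', x, y⟩ h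
      simp only [mem_filter, mem_univ, true_and] at h
      simp [h.2]
    · intro w h
      rfl
  rw [h1, Fintype.sum_sum_type, con]
  congr 1
  · rw [← Fin.sum_univ_eq_sum_range (fun i => i * min i k) m]
    refine sum_congr rfl fun z _ => ?_
    have e1 : univ.filter (fun x : Fin m => key m k (Sum.inl x) < key m k (Sum.inl z)) =
        univ.filter (fun x : Fin m => x.1 < z.1) := by
      ext x
      have e : (key m k (Sum.inl x) < key m k (Sum.inl z)) ↔ x.1 < z.1 := by
        change 2 * x.1 < 2 * z.1 ↔ x.1 < z.1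
        omega
      simp only [mem_filter, mem_univ, true_and, e]
    have e2 : univ.filter (fun y : Fin k => key m k (Sum.inr y) < key m k (Sum.inl z)) =
        univ.filter (fun y : Fin k => y.1 < z.1) := by
      ext x
      have e : (key m k (Sum.inr x) < key m k (Sum.inl z)) ↔ x.1 < z.1 := by
        change 2 * x.1 + 1 < 2 * z.1 ↔ x.1 < z.1
        omega
      simp only [mem_filter, mem_univ, true_and, e]
    rw [e1, e2, card_filter_lt_fin, card_filter_lt_fin, min_eq_left z.2.le]
  · rw [← Fin.sum_univ_eq_sum_range (fun i => min (i + 1) m * i) k]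
    refine sum_congr rfl fun z _ => ?_
    have e1 : univ.filter (fun x : Fin m => key m k (Sum.inl x) < key m k (Sum.inr z)) =
        univ.filter (fun x : Fin m => x.1 < z.1 + 1) := by
      ext x
      have e : (key m k (Sum.inl x) < key m k (Sum.inr z)) ↔ x.1 < z.1 + 1 := by
        change 2 * x.1 < 2 * z.1 + 1 ↔ x.1 < z.1 + 1
        omega
      simp only [mem_filter, mem_univ, true_and, e]
    have e2 : univ.filter (fun y : Fin k => key m k (Sum.inr y) < key m k (Sum.inr z)) =
        univ.filter (fun y : Fin k => y.1 < z.1) := by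
      ext x
      have e : (key m k (Sum.inr x) < key m k (Sum.inr z)) ↔ x.1 < z.1 := by
        change 2 * x.1 + 1 < 2 * z.1 + 1 ↔ x.1 < z.1
        omega
      simp only [mem_filter, mem_univ, true_and, e]
    rw [e1, e2, card_filter_lt_fin, card_filter_lt_fin, min_eq_left z.2.le]

theorem card_conH (m k : ℕ) : (conH m k).card = g m k := by
  rw [conH, card_image_of_injOn (conH_inj m k), card_idx, con_eq_g]

/-- the construction has no closed alternating tight walk -/
theorem conH_noWalk (m k : ℕ) :
    ¬ ∃ (p : ℕ) (v : ℕ → Fin m ⊕ Fin k), 0 < p ∧ (∀ i, v (i + 2 * p) = v i) ∧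
      (∀ i, v (2 * i) ∈ conA m k ∧ v (2 * i + 1) ∉ conA m k) ∧
      ∀ i, {v i, v (i + 1), v (i + 2)} ∈ conH m k := by
  rintro ⟨p, v, hp, hper, hcol, hedge⟩
  -- an index with maximal key
  obtain ⟨i0, -, hi0⟩ := Finset.exists_max_image (range (2 * p)) (fun i => key m k (v i))
    ⟨0, by rw [mem_range]; omega⟩
  have hperq : ∀ q i, v (i + 2 * p * q) = v i := by
    intro q
    induction q with
    | zero => intro i; simp
    | succ q ih =>
      intro i
      have : i + 2 * p * (q + 1) = (i + 2 * p * q) + 2 * p := by ring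
      rw [this, hper, ih]
  have hmax : ∀ i, key m k (v i) ≤ key m k (v i0) := by
    intro i
    have h1 : v i = v (i % (2 * p)) := by
      conv_lhs => rw [← Nat.mod_add_div i (2 * p)]
      exact hperq _ _
    rw [h1]
    exact hi0 _ (mem_range.2 (Nat.mod_lt _ (by omega)))
  -- shift so that the index is positive
  obtain ⟨j, hj⟩ : ∃ j, i0 + 2 * p = j + 1 := ⟨i0 + 2 * p - 1, by omega⟩
  have hvj : v (j + 1) = v i0 := by rw [← hj, hper]
  have he := hedge j
  simp only [conH, mem_image, idx, mem_filter, mem_univ, true_and] at he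
  obtain ⟨⟨z, x, y⟩, ⟨h1, h2⟩, heq⟩ := he
  simp only at h1 h2 heq
  have hz : z ∈ ({v j, v (j + 1), v (j + 2)} : Finset _) := by rw [← heq]; simp
  have hx : (Sum.inl x : Fin m ⊕ Fin k) ∈ ({v j, v (j + 1), v (j + 2)} : Finset _) := by
    rw [← heq]; simp
  have hy : (Sum.inr y : Fin m ⊕ Fin k) ∈ ({v j, v (j + 1), v (j + 2)} : Finset _) := by
    rw [← heq]; simp
  have hkz : key m k z ≤ key m k (v (j + 1)) := by
    rw [hvj]
    simp only [mem_insert, mem_singleton] at hz
    rcases hz with rfl | rfl | rfl <;> exact hmax _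
  have hx1 : Sum.inl x ≠ v (j + 1) := by
    intro h
    rw [h] at h1
    omega
  have hy1 : Sum.inr y ≠ v (j + 1) := by
    intro h
    rw [h] at h2
    omega
  simp only [mem_insert, mem_singleton, hx1, hy1, false_or] at hx hy
  have hxA : (Sum.inl x : Fin m ⊕ Fin k) ∈ conA m k := by rw [mem_conA]; exact ⟨x, rfl⟩
  have hyA := inr_notMem_conA m k y
  rcases Nat.even_or_odd' j with ⟨l, rfl | rfl⟩
  · have c1 := (hcol l).1
    have c2 := (hcol (l + 1)).1
    have e : 2 * (l + 1) = 2 * l + 2 := by ring
    rw [e] at c2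
    rcases hy with hy | hy
    · exact hyA (hy ▸ c1)
    · exact hyA (hy ▸ c2)
  · have c1 := (hcol l).2
    have c2 := (hcol (l + 1)).2
    have e : 2 * (l + 1) + 1 = 2 * l + 1 + 2 := by ring
    rw [e] at c2
    rcases hx with hx | hx
    · exact c1 (hx ▸ hxA)
    · exact c2 (hx ▸ hxA)

end Pool.Agent.H67.TCT
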