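import Mathlib

/-!
Counting lemma for linear orders on a rectangular array of cells.

For an injective time function `t` on the cells `α × β`, at least `p * q` cells are
among the first `q` cells of their row and among the first `p` cells of their column
(`p ≤ card α`, `q ≤ card β`).
-/

namespace Pool.Agent.H67.TCT

open Finset

/-- threshold lemma: for an injective `g` some threshold has exactly `q` values below it -/
theorem exists_threshold {β : Type*} [Fintype β] (g : β → ℕ) (hg : Function.Injective g)
    (q : ℕ) (hq : q ≤ Fintype.card β) :
    ∃ s : ℕ, (univ.filter (fun b => g b < s)).card = q := by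
  classical
  have hex : ∃ s : ℕ, q ≤ (univ.filter (fun b => g b < s)).card := by
    refine ⟨(univ.sup g) + 1, ?_⟩
    have : univ.filter (fun b => g b < univ.sup g + 1) = univ := by
      ext b
      simp only [mem_filter, mem_univ, true_and, iff_true]
      exact Nat.lt_succ_of_le (Finset.le_sup (f := g) (mem_univ b))
    rw [this]
    simpa using hq
  have h1 := Nat.find_spec hex
  have h2 := fun m => Nat.find_min hex (m := m)
  set s := Nat.find hex with hs
  refine ⟨s, le_antisymm ?_ h1⟩
  rcases Nat.eq_zero_or_pos s with h0 | hpos
  · rw [h0] at h1 ⊢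
    simp
  · obtain ⟨s', hs'⟩ : ∃ s', s = s' + 1 := ⟨s - 1, by omega⟩
    have h3 := h2 s' (by omega)
    push Not at h3
    have h4 : (univ.filter (fun b => g b < s)).card ≤
        (univ.filter (fun b => g b < s')).card + 1 := by
      have hsub : univ.filter (fun b => g b < s) ⊆
          univ.filter (fun b => g b < s') ∪ univ.filter (fun b => g b = s') := by
        intro b hb
        simp only [mem_filter, mem_univ, true_and, mem_union] at hb ⊢
        omega
      have h5 : (univ.filter (fun b => g b = s')).card ≤ 1 := by
        rw [Finset.card_le_one]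
        intro x hx y hy
        simp only [mem_filter, mem_univ, true_and] at hx hy
        exact hg (hx.trans hy.symm)
      calc _ ≤ _ := card_le_card hsub
        _ ≤ _ := card_union_le _ _
        _ ≤ _ := by omega
    omega

/-- a set of `p` elements with smallest values -/
theorem exists_smallest {α : Type*} [Fintype α] (f : α → ℕ) (p : ℕ)
    (hp : p ≤ Fintype.card α) :
    ∃ P : Finset α, P.card = p ∧ ∀ a ∈ P, ∀ a' ∉ P, f a ≤ f a' := by
  classical
  induction p with
  | zero => exact ⟨∅, by simp, by simp⟩
  | succ p ih =>
    obtain ⟨P, hP, hmin⟩ := ih (by omega)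
    have hne : (Pᶜ : Finset α).Nonempty := by
      rw [← Finset.card_pos, Finset.card_compl]
      omega
    obtain ⟨x, hx, hxmin⟩ := Finset.exists_min_image Pᶜ f hne
    rw [mem_compl] at hx
    refine ⟨insert x P, by rw [card_insert_of_notMem hx, hP], ?_⟩
    intro a ha a' ha'
    rw [mem_insert, not_or] at ha'
    rcases mem_insert.1 ha with rfl | ha
    · exact hxmin a' (by simpa using ha'.2)
    · exact hmin a ha a' ha'.2

/-- the key counting lemma: cells which are early in their row and in their column -/
theorem card_early {α β : Type*} [Fintype α] [Fintype β] [DecidableEq α] [DecidableEq β]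
    (t : α → β → ℕ) (hrow : ∀ a, Function.Injective (t a))
    (hcol : ∀ b, Function.Injective (fun a => t a b))
    (p q : ℕ) (hp : p ≤ Fintype.card α) (hq : q ≤ Fintype.card β) :
    p * q ≤ (univ.filter (fun c : α × β =>
      (univ.filter (fun b' => t c.1 b' < t c.1 c.2)).card < q ∧
      (univ.filter (fun a' => t a' c.2 < t c.1 c.2)).card < p)).card := by
  classical
  choose σ hσ using fun a => exists_threshold (t a) (hrow a) q hq
  choose ρ hρ using fun b => exists_threshold (fun a => t a b) (hcol b) p hp
  obtain ⟨P, hPc, hP⟩ := exists_smallest σ p hp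
  obtain ⟨Q, hQc, hQ⟩ := exists_smallest ρ q hq
  -- the two disjoint parts of the doubly marked set
  set W1 : Finset (α × β) := univ.filter (fun c => σ c.1 ≤ ρ c.2 ∧ t c.1 c.2 < σ c.1) with hW1
  set W2 : Finset (α × β) := univ.filter (fun c => ρ c.2 < σ c.1 ∧ t c.1 c.2 < ρ c.2) with hW2
  have hdisj : Disjoint W1 W2 := by
    rw [Finset.disjoint_left]
    intro c h1 h2
    simp only [hW1, hW2, mem_filter, mem_univ, true_and] at h1 h2
    omega
  have hsub : W1 ∪ W2 ⊆ univ.filter (fun c : α × β =>
      (univ.filter (fun b' => t c.1 b' < t c.1 c.2)).card < q ∧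
      (univ.filter (fun a' => t a' c.2 < t c.1 c.2)).card < p) := by
    intro c hc
    have hc' : t c.1 c.2 < σ c.1 ∧ t c.1 c.2 < ρ c.2 := by
      rcases mem_union.1 hc with h | h
      · simp only [hW1, mem_filter, mem_univ, true_and] at h
        omega
      · simp only [hW2, mem_filter, mem_univ, true_and] at h
        omega
    simp only [mem_filter, mem_univ, true_and]
    constructor
    · calc _ < (univ.filter (fun b => t c.1 b < σ c.1)).card := by
            apply card_lt_card
            rw [Finset.ssubset_iff_of_subset]
            · exact ⟨c.2, by simp [hc'.1], by simp⟩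
            · intro b hb
              simp only [mem_filter, mem_univ, true_and] at hb ⊢
              omega
        _ = q := hσ c.1
    · calc _ < (univ.filter (fun a => t a c.2 < ρ c.2)).card := by
            apply card_lt_card
            rw [Finset.ssubset_iff_of_subset]
            · exact ⟨c.1, by simp [hc'.2], by simp⟩
            · intro a ha
              simp only [mem_filter, mem_univ, true_and] at ha ⊢
              omega
        _ = p := hρ c.2
  refine le_trans ?_ (card_le_card hsub)
  rw [card_union_of_disjoint hdisj]
  -- rows of P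
  have hrowP : ∀ a ∈ P, (Q.filter (fun b => σ a ≤ ρ b)).card ≤
      (univ.filter (fun b => σ a ≤ ρ b ∧ t a b < σ a)).card := by
    intro a ha
    by_cases hsubQ : ∀ b, ρ b < σ a → b ∈ Q
    · have h1 : (univ.filter (fun b => t a b < σ a)).card ≤
          (univ.filter (fun b => σ a ≤ ρ b ∧ t a b < σ a)).card +
          (Q.filter (fun b => ρ b < σ a)).card := by
        rw [← card_union_add_card_inter]
        refine le_trans (card_le_card ?_) (Nat.le_add_right _ _)
        intro b hb
        simp only [mem_filter, mem_univ, true_and, mem_union] at hb ⊢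
        by_cases h : σ a ≤ ρ b
        · exact Or.inl ⟨h, hb⟩
        · exact Or.inr ⟨hsubQ b (by omega), by omega⟩
      have h2 : (Q.filter (fun b => σ a ≤ ρ b)).card +
          (Q.filter (fun b => ρ b < σ a)).card = q := by
        rw [← hQc, ← card_union_of_disjoint]
        · congr 1
          ext b
          simp only [mem_union, mem_filter]
          constructor
          · rintro (h | h) <;> exact h.1
          · intro h
            rcases Nat.lt_or_ge (ρ b) (σ a) with h' | h'
            · exact Or.inr ⟨h, h'⟩
            · exact Or.inl ⟨h, h'⟩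
        · rw [Finset.disjoint_left]
          intro b h1 h2
          simp only [mem_filter] at h1 h2
          omega
      rw [hσ a] at h1
      omega
    · push Not at hsubQ
      obtain ⟨b0, hb0, hb0Q⟩ := hsubQ
      have : Q.filter (fun b => σ a ≤ ρ b) = ∅ := by
        rw [Finset.filter_eq_empty_iff]
        intro b hb
        have := hQ b hb b0 hb0Q
        omega
      rw [this]
      simp
  have hcolQ : ∀ b ∈ Q, (P.filter (fun a => ρ b < σ a)).card ≤
      (univ.filter (fun a => ρ b < σ a ∧ t a b < ρ b)).card := by
    intro b hb
    by_cases hsubP : ∀ a, σ a ≤ ρ b → a ∈ P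
    · have h1 : (univ.filter (fun a => t a b < ρ b)).card ≤
          (univ.filter (fun a => ρ b < σ a ∧ t a b < ρ b)).card +
          (P.filter (fun a => σ a ≤ ρ b)).card := by
        rw [← card_union_add_card_inter]
        refine le_trans (card_le_card ?_) (Nat.le_add_right _ _)
        intro a ha
        simp only [mem_filter, mem_univ, true_and, mem_union] at ha ⊢
        by_cases h : σ a ≤ ρ b
        · exact Or.inr ⟨hsubP a h, h⟩
        · exact Or.inl ⟨by omega, ha⟩
      have h2 : (P.filter (fun a => ρ b < σ a)).card +
          (P.filter (fun a => σ a ≤ ρ b)).card = p := by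
        rw [← hPc, ← card_union_of_disjoint]
        · congr 1
          ext a
          simp only [mem_union, mem_filter]
          constructor
          · rintro (h | h) <;> exact h.1
          · intro h
            rcases Nat.lt_or_ge (ρ b) (σ a) with h' | h'
            · exact Or.inl ⟨h, h'⟩
            · exact Or.inr ⟨h, h'⟩
        · rw [Finset.disjoint_left]
          intro a h1 h2
          simp only [mem_filter] at h1 h2
          omega
      have h3 := hρ b
      omega
    · push Not at hsubP
      obtain ⟨a0, ha0, ha0P⟩ := hsubP
      have : P.filter (fun a => ρ b < σ a) = ∅ := by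
        rw [Finset.filter_eq_empty_iff]
        intro a ha
        have := hP a ha a0 ha0P
        omega
      rw [this]
      simp
  have hW1card : W1.card = ∑ a, (univ.filter (fun b => σ a ≤ ρ b ∧ t a b < σ a)).card := by
    rw [hW1, card_eq_sum_card_fiberwise (f := Prod.fst) (t := univ) (by intro x _; simp)]
    refine sum_congr rfl fun a _ => ?_
    refine card_bij' (fun c _ => c.2) (fun b _ => (a, b)) ?_ ?_ ?_ ?_
    · rintro ⟨x, y⟩ h
      simp only [mem_filter, mem_univ, true_and] at h ⊢
      obtain ⟨h1, rfl⟩ := h
      exact h1
    · intro y h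
      simp only [mem_filter, mem_univ, true_and] at h ⊢
      exact ⟨h, trivial⟩
    · rintro ⟨x, y⟩ h
      simp only [mem_filter, mem_univ, true_and] at h
      simp [h.2]
    · intro y h
      rfl
  have hW2card : W2.card = ∑ b, (univ.filter (fun a => ρ b < σ a ∧ t a b < ρ b)).card := by
    rw [hW2, card_eq_sum_card_fiberwise (f := Prod.snd) (t := univ) (by intro x _; simp)]
    refine sum_congr rfl fun b _ => ?_
    refine card_bij' (fun c _ => c.1) (fun a _ => (a, b)) ?_ ?_ ?_ ?_
    · rintro ⟨x, y⟩ h
      simp only [mem_filter, mem_univ, true_and] at h ⊢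
      obtain ⟨h1, rfl⟩ := h
      exact h1
    · intro y h
      simp only [mem_filter, mem_univ, true_and] at h ⊢
      exact ⟨h, trivial⟩
    · rintro ⟨x, y⟩ h
      simp only [mem_filter, mem_univ, true_and] at h
      simp [h.2]
    · intro y h
      rfl
  have hsum1 : ∑ a ∈ P, (Q.filter (fun b => σ a ≤ ρ b)).card ≤ W1.card := by
    rw [hW1card]
    calc _ ≤ ∑ a ∈ P, (univ.filter (fun b => σ a ≤ ρ b ∧ t a b < σ a)).card :=
          sum_le_sum hrowP
      _ ≤ _ := sum_le_sum_of_subset (subset_univ P)
  have hsum2 : ∑ b ∈ Q, (P.filter (fun a => ρ b < σ a)).card ≤ W2.card := by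
    rw [hW2card]
    calc _ ≤ ∑ b ∈ Q, (univ.filter (fun a => ρ b < σ a ∧ t a b < ρ b)).card :=
          sum_le_sum hcolQ
      _ ≤ _ := sum_le_sum_of_subset (subset_univ Q)
  have hswap : ∑ b ∈ Q, (P.filter (fun a => ρ b < σ a)).card =
      ∑ a ∈ P, (Q.filter (fun b => ρ b < σ a)).card := by
    simp only [card_filter]
    exact sum_comm
  have htot : p * q = ∑ a ∈ P, (Q.filter (fun b => σ a ≤ ρ b)).card +
      ∑ a ∈ P, (Q.filter (fun b => ρ b < σ a)).card := by
    rw [← sum_add_distrib, ← hPc, ← hQc, ← smul_eq_mul, ← sum_const]
    refine sum_congr rfl fun a _ => ?_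
    rw [← card_union_of_disjoint]
    · congr 1
      ext b
      simp only [mem_union, mem_filter]
      constructor
      · intro h
        rcases Nat.lt_or_ge (ρ b) (σ a) with h' | h'
        · exact Or.inr ⟨h, h'⟩
        · exact Or.inl ⟨h, h'⟩
      · rintro (h | h) <;> exact h.1
    · rw [Finset.disjoint_left]
      intro b h1 h2
      simp only [mem_filter] at h1 h2
      omega
  omega

end Pool.Agent.H67.TCT
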