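import Mathlib
import Pool.Agent.H67.TCT.Count
import Pool.Agent.H67.TCT.Arith

/-! Upper bound for two-coloured 3-graphs with the sparse pair property. -/

namespace Pool.Agent.H67.TCT

open Finset

/-- elimination order from the local condition -/
theorem exists_order {α β : Type*} [Fintype α] [Fintype β] [DecidableEq α] [DecidableEq β]
    (rowE : α → β → β → Prop) (colE : α → α → β → Prop)
    [∀ a b b', Decidable (rowE a b b')] [∀ a a' b, Decidable (colE a a' b)]
    (h : ∀ S : Finset (α × β), S.Nonempty → ∃ c ∈ S,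
      (univ.filter (fun b' => (c.1, b') ∈ S ∧ b' ≠ c.2 ∧ rowE c.1 c.2 b')).card +
      (univ.filter (fun a' => (a', c.2) ∈ S ∧ a' ≠ c.1 ∧ colE c.1 a' c.2)).card ≤
      max (univ.filter (fun b' => (c.1, b') ∈ S ∧ b' ≠ c.2)).card
        (univ.filter (fun a' => (a', c.2) ∈ S ∧ a' ≠ c.1)).card) :
    ∃ t : α → β → ℕ, (∀ a, Function.Injective (t a)) ∧
      (∀ b, Function.Injective (fun a => t a b)) ∧
      ∀ a b, (univ.filter (fun b' => t a b' < t a b ∧ rowE a b b')).card +
        (univ.filter (fun a' => t a' b < t a b ∧ colE a a' b)).card ≤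
        max (univ.filter (fun b' => t a b' < t a b)).card
          (univ.filter (fun a' => t a' b < t a b)).card := by
  classical
  have key : ∀ n : ℕ, ∀ S : Finset (α × β), S.card = n → ∃ t : α × β → ℕ,
      Set.InjOn t S ∧ (∀ c ∈ S, t c < n) ∧
      ∀ c ∈ S,
        (univ.filter (fun b' => (c.1, b') ∈ S ∧ t (c.1, b') < t c ∧ rowE c.1 c.2 b')).card +
        (univ.filter (fun a' => (a', c.2) ∈ S ∧ t (a', c.2) < t c ∧ colE c.1 a' c.2)).card ≤
        max (univ.filter (fun b' => (c.1, b') ∈ S ∧ t (c.1, b') < t c)).card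
          (univ.filter (fun a' => (a', c.2) ∈ S ∧ t (a', c.2) < t c)).card := by
    intro n
    induction n with
    | zero =>
      intro S hS
      rw [card_eq_zero] at hS
      subst hS
      exact ⟨fun _ => 0, by simp, by simp, by simp⟩
    | succ n ih =>
      intro S hS
      have hne : S.Nonempty := by rw [← card_pos]; omega
      obtain ⟨c, hc, hgood⟩ := h S hne
      obtain ⟨t, ht1, ht2, ht3⟩ := ih (S.erase c) (by rw [card_erase_of_mem hc]; omega)
      obtain ⟨u, huc, hu'⟩ : ∃ u : α × β → ℕ, u c = n ∧ ∀ x, x ≠ c → u x = t x :=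
        ⟨fun x => if x = c then n else t x, by simp, by intro x hx; simp [hx]⟩
      have hu : ∀ x ∈ S, x ≠ c → u x = t x ∧ t x < n := by
        intro x hx hxc
        exact ⟨hu' x hxc, ht2 x (mem_erase.2 ⟨hxc, hx⟩)⟩
      refine ⟨u, ?_, ?_, ?_⟩
      · intro x hx y hy hxy
        by_cases hxc : x = c <;> by_cases hyc : y = c
        · rw [hxc, hyc]
        · have := hu y hy hyc
          rw [hxc] at hxy
          omega
        · have := hu x hx hxc
          rw [hyc] at hxy
          omega
        · have h1 := hu x hx hxc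
          have h2 := hu y hy hyc
          exact ht1 (mem_coe.2 (mem_erase.2 ⟨hxc, hx⟩)) (mem_coe.2 (mem_erase.2 ⟨hyc, hy⟩))
            (by omega)
      · intro x hx
        by_cases hxc : x = c
        · rw [hxc]
          omega
        · have := hu x hx hxc
          omega
      · intro x hx
        by_cases hxc : x = c
        · subst hxc
          have hlt : ∀ y ∈ S, u y < u x ↔ y ≠ x := by
            intro y hy
            constructor
            · rintro h1 rfl
              omega
            · intro h1
              have := hu y hy h1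
              omega
          have e1 : ∀ (P : β → Prop) [DecidablePred P], univ.filter (fun b' => (x.1, b') ∈ S ∧
              u (x.1, b') < u x ∧ P b') =
              univ.filter (fun b' => (x.1, b') ∈ S ∧ b' ≠ x.2 ∧ P b') := by
            intro P _
            ext b'
            simp only [mem_filter, mem_univ, true_and]
            constructor
            · rintro ⟨h1, h2, h3⟩
              rw [hlt _ h1] at h2
              exact ⟨h1, fun h4 => h2 (by rw [h4]), h3⟩
            · rintro ⟨h1, h2, h3⟩
              exact ⟨h1, (hlt _ h1).2 fun h4 => h2 (congrArg Prod.snd h4), h3⟩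
          have e2 : ∀ (P : α → Prop) [DecidablePred P], univ.filter (fun a' => (a', x.2) ∈ S ∧
              u (a', x.2) < u x ∧ P a') =
              univ.filter (fun a' => (a', x.2) ∈ S ∧ a' ≠ x.1 ∧ P a') := by
            intro P _
            ext a'
            simp only [mem_filter, mem_univ, true_and]
            constructor
            · rintro ⟨h1, h2, h3⟩
              rw [hlt _ h1] at h2
              exact ⟨h1, fun h4 => h2 (by rw [h4]), h3⟩
            · rintro ⟨h1, h2, h3⟩
              exact ⟨h1, (hlt _ h1).2 fun h4 => h2 (congrArg Prod.fst h4), h3⟩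
          have e3 := e1 (fun _ => True)
          have e4 := e2 (fun _ => True)
          simp only [and_true] at e3 e4
          rw [e1 (fun b' => rowE x.1 x.2 b'), e2 (fun a' => colE x.1 a' x.2), e3, e4]
          exact hgood
        · have hx2 := hu x hx hxc
          have hlt : ∀ y, (y ∈ S ∧ u y < u x) ↔ (y ∈ S.erase c ∧ t y < t x) := by
            intro y
            constructor
            · rintro ⟨h1, h2⟩
              have hyc : y ≠ c := by
                rintro rfl
                omega
              have := hu y h1 hyc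
              exact ⟨mem_erase.2 ⟨hyc, h1⟩, by omega⟩
            · rintro ⟨h1, h2⟩
              rw [mem_erase] at h1
              have := hu y h1.2 h1.1
              exact ⟨h1.2, by omega⟩
          have e1 : ∀ (P : β → Prop) [DecidablePred P], univ.filter (fun b' => (x.1, b') ∈ S ∧
              u (x.1, b') < u x ∧ P b') =
              univ.filter (fun b' => (x.1, b') ∈ S.erase c ∧ t (x.1, b') < t x ∧ P b') := by
            intro P _
            ext b'
            simp only [mem_filter, mem_univ, true_and]
            rw [← and_assoc, ← and_assoc, hlt]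
          have e2 : ∀ (P : α → Prop) [DecidablePred P], univ.filter (fun a' => (a', x.2) ∈ S ∧
              u (a', x.2) < u x ∧ P a') =
              univ.filter (fun a' => (a', x.2) ∈ S.erase c ∧ t (a', x.2) < t x ∧ P a') := by
            intro P _
            ext a'
            simp only [mem_filter, mem_univ, true_and]
            rw [← and_assoc, ← and_assoc, hlt]
          have e3 := e1 (fun _ => True)
          have e4 := e2 (fun _ => True)
          simp only [and_true] at e3 e4
          rw [e1 (fun b' => rowE x.1 x.2 b'), e2 (fun a' => colE x.1 a' x.2), e3, e4]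
          exact ht3 x (mem_erase.2 ⟨hxc, hx⟩)
  obtain ⟨t, ht1, -, ht3⟩ := key _ univ rfl
  refine ⟨fun a b => t (a, b), ?_, ?_, ?_⟩
  · intro a b b' hbb
    have := ht1 (by simp) (by simp) hbb
    exact (Prod.mk.inj this).2
  · intro b a a' haa
    have := ht1 (by simp) (by simp) haa
    exact (Prod.mk.inj this).1
  · intro a b
    have := ht3 (a, b) (mem_univ _)
    simpa only [mem_univ, true_and] using this

/-- the sum of the maxima of row rank and column rank -/
theorem sum_max_le {α β : Type*} [Fintype α] [Fintype β] [DecidableEq α] [DecidableEq β]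
    (t : α → β → ℕ) (hrow : ∀ a, Function.Injective (t a))
    (hcol : ∀ b, Function.Injective (fun a => t a b)) :
    ∑ c : α × β, max (univ.filter (fun b' => t c.1 b' < t c.1 c.2)).card
      (univ.filter (fun a' => t a' c.2 < t c.1 c.2)).card ≤
      g (Fintype.card α) (Fintype.card β) := by
  classical
  rw [g_eq_lev]
  set m := Fintype.card α with hm
  set k := Fintype.card β with hk
  set r : α × β → ℕ := fun c => (univ.filter (fun b' => t c.1 b' < t c.1 c.2)).card with hr
  set s : α × β → ℕ := fun c => (univ.filter (fun a' => t a' c.2 < t c.1 c.2)).card with hs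
  have hrk : ∀ c, r c < k := by
    intro c
    rw [hk, ← card_univ]
    apply card_lt_card
    rw [Finset.ssubset_iff_of_subset (subset_univ _)]
    exact ⟨c.2, mem_univ _, by simp⟩
  have hsm : ∀ c, s c < m := by
    intro c
    rw [hm, ← card_univ]
    apply card_lt_card
    rw [Finset.ssubset_iff_of_subset (subset_univ _)]
    exact ⟨c.1, mem_univ _, by simp⟩
  have h1 : ∀ c : α × β, max (r c) (s c) =
      ∑ J ∈ Ico 1 (max m k), if J ≤ r c ∨ J ≤ s c then 1 else 0 := by
    intro c
    rw [← card_filter]
    have : (Ico 1 (max m k)).filter (fun J => J ≤ r c ∨ J ≤ s c) =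
        Ico 1 (max (r c) (s c) + 1) := by
      ext J
      simp only [mem_filter, mem_Ico]
      have := hrk c
      have := hsm c
      omega
    rw [this, Nat.card_Ico]
    omega
  calc ∑ c : α × β, max (r c) (s c)
      = ∑ c : α × β, ∑ J ∈ Ico 1 (max m k), if J ≤ r c ∨ J ≤ s c then 1 else 0 :=
        sum_congr rfl fun c _ => h1 c
    _ = ∑ J ∈ Ico 1 (max m k), ∑ c : α × β, if J ≤ r c ∨ J ≤ s c then 1 else 0 := sum_comm
    _ ≤ ∑ J ∈ Ico 1 (max m k), (m * k - min J m * min J k) := by
        refine sum_le_sum fun J _ => ?_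
        rw [← card_filter]
        have hearly := card_early t hrow hcol (min J m) (min J k) (min_le_right _ _)
          (min_le_right _ _)
        have hsub : univ.filter (fun c : α × β =>
            (univ.filter (fun b' => t c.1 b' < t c.1 c.2)).card < min J k ∧
            (univ.filter (fun a' => t a' c.2 < t c.1 c.2)).card < min J m) ⊆
            (univ.filter (fun c : α × β => J ≤ r c ∨ J ≤ s c))ᶜ := by
          intro c hc
          simp only [mem_filter, mem_univ, true_and, mem_compl] at hc ⊢
          simp only [hr, hs]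
          omega
        have h2 := card_le_card hsub
        rw [card_compl, Fintype.card_prod, ← hm, ← hk] at h2
        have h3 : (univ.filter (fun c : α × β => J ≤ r c ∨ J ≤ s c)).card ≤ m * k := by
          rw [hm, hk, ← Fintype.card_prod]
          exact card_le_univ _
        omega

/-- a set of cells without a good cell yields a closed alternating walk -/
theorem good_of_noWalk {V : Type*} [Fintype V] [DecidableEq V] (A : Finset V)
    (H : Finset (Finset V))
    (hW : ¬ ∃ (p : ℕ) (v : ℕ → V), 0 < p ∧ (∀ i, v (i + 2 * p) = v i) ∧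
      (∀ i, v (2 * i) ∈ A ∧ v (2 * i + 1) ∉ A) ∧ ∀ i, {v i, v (i + 1), v (i + 2)} ∈ H)
    (S : Finset (V × V)) (hSA : ∀ c ∈ S, c.1 ∈ A ∧ c.2 ∉ A) (hS : S.Nonempty) :
    ∃ c ∈ S, (∀ b', (c.1, b') ∈ S → ¬ ({c.2, c.1, b'} : Finset V) ∈ H) ∨
      (∀ a', (a', c.2) ∈ S → ¬ ({c.1, c.2, a'} : Finset V) ∈ H) := by
  classical
  by_contra hcon
  push Not at hcon
  -- the step map
  have hcol : ∀ c : S, ∃ d : S, d.1.2 = c.1.2 ∧ ({c.1.1, c.1.2, d.1.1} : Finset V) ∈ H := by
    rintro ⟨c, hc⟩
    obtain ⟨-, a', ha', h⟩ := hcon c hc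
    exact ⟨⟨(a', c.2), ha'⟩, rfl, h⟩
  have hrow : ∀ c : S, ∃ d : S, d.1.1 = c.1.1 ∧ ({c.1.2, c.1.1, d.1.2} : Finset V) ∈ H := by
    rintro ⟨c, hc⟩
    obtain ⟨⟨b', hb', h⟩, -⟩ := hcon c hc
    exact ⟨⟨(c.1, b'), hb'⟩, rfl, h⟩
  choose f hf1 hf2 using hcol
  choose e he1 he2 using hrow
  set F : S → S := fun c => e (f c) with hF
  have hF1 : ∀ c : S, ({c.1.1, c.1.2, (F c).1.1} : Finset V) ∈ H := by
    intro c
    have := hf2 c
    rw [← he1 (f c)] at this
    exact this
  have hF2 : ∀ c : S, ({c.1.2, (F c).1.1, (F c).1.2} : Finset V) ∈ H := by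
    intro c
    have := he2 (f c)
    rw [hf1 c, ← he1 (f c)] at this
    exact this
  obtain ⟨c0, hc0⟩ := hS
  obtain ⟨i, j, hij, hFij⟩ := Finite.exists_ne_map_eq_of_infinite
    (fun n : ℕ => F^[n] ⟨c0, hc0⟩)
  wlog hlt : i < j generalizing i j
  · exact this j i hij.symm hFij.symm (by omega)
  set c1 : S := F^[i] ⟨c0, hc0⟩ with hc1
  have hper : F^[j - i] c1 = c1 := by
    rw [hc1, ← Function.iterate_add_apply]
    have : j - i + i = j := by omega
    rw [this]
    exact hFij.symm
  apply hW
  refine ⟨j - i, fun n => if n % 2 = 0 then (F^[n / 2] c1).1.1 else (F^[n / 2] c1).1.2,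
    by omega, ?_, ?_, ?_⟩
  · intro n
    have e1 : (n + 2 * (j - i)) % 2 = n % 2 := by omega
    have e2 : (n + 2 * (j - i)) / 2 = n / 2 + (j - i) := by omega
    simp only [e1, e2]
    rw [Function.iterate_add_apply, hper]
  · intro n
    have e1 : (2 * n) % 2 = 0 := by omega
    have e2 : ¬ (2 * n + 1) % 2 = 0 := by omega
    have e3 : (2 * n + 1) / 2 = n := by omega
    simp only [e1, e2, e3, if_true, if_false]
    exact ⟨(hSA _ (F^[2 * n / 2] c1).2).1, (hSA _ (F^[n] c1).2).2⟩
  · intro n
    rcases Nat.even_or_odd' n with ⟨l, rfl | rfl⟩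
    · have e1 : (2 * l) % 2 = 0 := by omega
      have e2 : ¬ (2 * l + 1) % 2 = 0 := by omega
      have e3 : (2 * l + 2) % 2 = 0 := by omega
      have e4 : (2 * l) / 2 = l := by omega
      have e5 : (2 * l + 1) / 2 = l := by omega
      have e6 : (2 * l + 2) / 2 = l + 1 := by omega
      simp only [e1, e2, e3, e4, e5, e6, if_true, if_false]
      rw [Function.iterate_succ_apply']
      exact hF1 _
    · have e1 : ¬ (2 * l + 1) % 2 = 0 := by omega
      have e2 : (2 * l + 1 + 1) % 2 = 0 := by omega
      have e3 : ¬ (2 * l + 1 + 2) % 2 = 0 := by omega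
      have e4 : (2 * l + 1) / 2 = l := by omega
      have e5 : (2 * l + 1 + 1) / 2 = l + 1 := by omega
      have e6 : (2 * l + 1 + 2) / 2 = l + 1 := by omega
      simp only [e1, e2, e3, e4, e5, e6, if_true, if_false]
      rw [Function.iterate_succ_apply']
      exact hF2 _

/-- the upper bound -/
theorem upper {V : Type*} [Fintype V] [DecidableEq V] (A : Finset V) (H : Finset (Finset V))
    (hH : ∀ e ∈ H, e.card = 3 ∧ (∃ x ∈ e, x ∈ A) ∧ (∃ x ∈ e, x ∉ A))
    (hW : ∀ S : Finset (V × V), S.Nonempty → (∀ c ∈ S, c.1 ∈ A ∧ c.2 ∉ A) →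
      ∃ c ∈ S,
        (S.filter (fun d => d.1 = c.1 ∧ d.2 ≠ c.2 ∧ {c.2, c.1, d.2} ∈ H)).card +
        (S.filter (fun d => d.2 = c.2 ∧ d.1 ≠ c.1 ∧ {c.1, c.2, d.1} ∈ H)).card ≤
        max (S.filter (fun d => d.1 = c.1 ∧ d.2 ≠ c.2)).card
          (S.filter (fun d => d.2 = c.2 ∧ d.1 ≠ c.1)).card) :
    H.card ≤ g A.card Aᶜ.card := by
  classical
  obtain ⟨t, ht1, ht2, ht3⟩ := exists_order (α := {x : V // x ∈ A}) (β := {x : V // x ∉ A})
    (fun a b b' => ({b.1, a.1, b'.1} : Finset V) ∈ H)
    (fun a a' b => ({a.1, b.1, a'.1} : Finset V) ∈ H) (by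
      intro S hS
      set φ : {x : V // x ∈ A} × {x : V // x ∉ A} ↪ V × V :=
        ⟨fun c => (c.1.1, c.2.1), by
          rintro ⟨a, b⟩ ⟨a', b'⟩ h
          simp only [Prod.mk.injEq] at h
          exact Prod.ext (Subtype.ext h.1) (Subtype.ext h.2)⟩ with hφ
      obtain ⟨c, hc, hgood⟩ := hW (S.map φ) (by simpa using hS) (by
        intro c hc
        rw [mem_map] at hc
        obtain ⟨d, -, rfl⟩ := hc
        exact ⟨d.1.2, d.2.2⟩)
      rw [mem_map] at hc
      obtain ⟨d, hd, rfl⟩ := hc
      refine ⟨d, hd, ?_⟩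
      have er : ∀ (P : V → Prop) [DecidablePred P],
          ((S.map φ).filter (fun e => e.1 = (φ d).1 ∧ e.2 ≠ (φ d).2 ∧ P e.2)).card =
          (univ.filter (fun b' => (d.1, b') ∈ S ∧ b' ≠ d.2 ∧ P b'.1)).card := by
        intro P _
        symm
        refine card_bij (fun b' _ => φ (d.1, b')) ?_ ?_ ?_
        · intro b' hb'
          simp only [mem_filter, mem_univ, true_and] at hb'
          simp only [mem_filter, mem_map']
          refine ⟨hb'.1, rfl, ?_, hb'.2.2⟩
          intro h
          exact hb'.2.1 (Subtype.ext h)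
        · intro b' _ b'' _ h
          have := φ.injective h
          exact (Prod.mk.inj this).2
        · intro e he
          simp only [mem_filter, mem_map] at he
          obtain ⟨⟨x, hx, rfl⟩, h1, h2, h3⟩ := he
          have hx1 : x.1 = d.1 := Subtype.ext h1
          refine ⟨x.2, ?_, ?_⟩
          · simp only [mem_filter, mem_univ, true_and]
            refine ⟨by rw [← hx1]; exact hx, ?_, h3⟩
            rintro h
            exact h2 (congrArg Subtype.val h)
          · rw [← hx1]
      have ec : ∀ (P : V → Prop) [DecidablePred P],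
          ((S.map φ).filter (fun e => e.2 = (φ d).2 ∧ e.1 ≠ (φ d).1 ∧ P e.1)).card =
          (univ.filter (fun a' => (a', d.2) ∈ S ∧ a' ≠ d.1 ∧ P a'.1)).card := by
        intro P _
        symm
        refine card_bij (fun a' _ => φ (a', d.2)) ?_ ?_ ?_
        · intro a' ha'
          simp only [mem_filter, mem_univ, true_and] at ha'
          simp only [mem_filter, mem_map']
          refine ⟨ha'.1, rfl, ?_, ha'.2.2⟩
          intro h
          exact ha'.2.1 (Subtype.ext h)
        · intro a' _ a'' _ h
          have := φ.injective h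
          exact (Prod.mk.inj this).1
        · intro e he
          simp only [mem_filter, mem_map] at he
          obtain ⟨⟨x, hx, rfl⟩, h1, h2, h3⟩ := he
          have hx1 : x.2 = d.2 := Subtype.ext h1
          refine ⟨x.1, ?_, ?_⟩
          · simp only [mem_filter, mem_univ, true_and]
            refine ⟨by rw [← hx1]; exact hx, ?_, h3⟩
            rintro h
            exact h2 (congrArg Subtype.val h)
          · rw [← hx1]
      have er0 := er (fun _ => True)
      have ec0 := ec (fun _ => True)
      simp only [and_true] at er0 ec0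
      rw [er (fun y => {(φ d).2, (φ d).1, y} ∈ H), ec (fun y => {(φ d).1, (φ d).2, y} ∈ H),
        er0, ec0] at hgood
      exact hgood)
  have hcardA : Fintype.card {x : V // x ∈ A} = A.card := Fintype.card_coe A
  have hcardB : Fintype.card {x : V // x ∉ A} = Aᶜ.card := by
    rw [Fintype.card_subtype]
    congr 1
    ext x
    simp
  have hsum := sum_max_le t ht1 ht2
  rw [hcardA, hcardB] at hsum
  refine le_trans ?_ hsum
  set E : {x : V // x ∈ A} × {x : V // x ∉ A} → Finset (Finset V) := fun c =>
      (univ.filter (fun b' => t c.1 b' < t c.1 c.2 ∧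
        ({c.2.1, c.1.1, b'.1} : Finset V) ∈ H)).image
        (fun b' => ({c.2.1, c.1.1, b'.1} : Finset V)) ∪
      (univ.filter (fun a' => t a' c.2 < t c.1 c.2 ∧
        ({c.1.1, c.2.1, a'.1} : Finset V) ∈ H)).image
        (fun a' => ({c.1.1, c.2.1, a'.1} : Finset V)) with hE
  have hsub : H ⊆ univ.biUnion E := by
    intro h hh
    obtain ⟨h3, ⟨x, hx, hxA⟩, ⟨y, hy, hyA⟩⟩ := hH h hh
    have hxy : x ≠ y := fun hxy => hyA (hxy ▸ hxA)
    obtain ⟨z, hz, hzx, hzy⟩ : ∃ z ∈ h, z ≠ x ∧ z ≠ y := by
      by_contra hno
      push Not at hno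
      have : h ⊆ {x, y} := by
        intro z hz
        by_cases hzx : z = x
        · simp [hzx]
        · simp [hno z hz hzx]
      have := card_le_card this
      have h2 := card_le_two (a := x) (b := y)
      omega
    have hset : h = {x, y, z} := by
      symm
      apply eq_of_subset_of_card_le
      · intro w hw
        simp only [mem_insert, mem_singleton] at hw
        rcases hw with rfl | rfl | rfl <;> assumption
      · rw [h3, card_eq_three.2 ⟨x, y, z, hxy, hzx.symm, hzy.symm, rfl⟩]
    rw [mem_biUnion]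
    by_cases hzA : z ∈ A
    · -- two vertices in `A`
      have main : ∀ x z : V, ∀ hx : x ∈ A, ∀ hz : z ∈ A, h = {x, y, z} →
          t ⟨z, hz⟩ ⟨y, hyA⟩ < t ⟨x, hx⟩ ⟨y, hyA⟩ → ∃ c ∈ univ, h ∈ E c := by
        intro x z hx hz hset hlt
        refine ⟨(⟨x, hx⟩, ⟨y, hyA⟩), mem_univ _, ?_⟩
        rw [hE]
        simp only
        rw [mem_union]
        right
        rw [mem_image]
        refine ⟨⟨z, hz⟩, ?_, hset.symm⟩
        simp only [mem_filter, mem_univ, true_and]
        exact ⟨hlt, hset ▸ hh⟩
      rcases Nat.lt_trichotomy (t ⟨z, hzA⟩ ⟨y, hyA⟩) (t ⟨x, hxA⟩ ⟨y, hyA⟩) with hlt | heq | hlt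
      · exact main x z hxA hzA hset hlt
      · exfalso
        have := ht2 ⟨y, hyA⟩ heq
        exact hzx (congrArg Subtype.val this)
      · refine main z x hzA hxA ?_ hlt
        rw [hset]
        ext w
        simp only [mem_insert, mem_singleton]
        tauto
    · have main : ∀ y z : V, ∀ hy : y ∉ A, ∀ hz : z ∉ A, h = {y, x, z} →
          t ⟨x, hxA⟩ ⟨z, hz⟩ < t ⟨x, hxA⟩ ⟨y, hy⟩ → ∃ c ∈ univ, h ∈ E c := by
        intro y z hy hz hset hlt
        refine ⟨(⟨x, hxA⟩, ⟨y, hy⟩), mem_univ _, ?_⟩
        rw [hE]
        simp only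
        rw [mem_union]
        left
        rw [mem_image]
        refine ⟨⟨z, hz⟩, ?_, hset.symm⟩
        simp only [mem_filter, mem_univ, true_and]
        exact ⟨hlt, hset ▸ hh⟩
      rcases Nat.lt_trichotomy (t ⟨x, hxA⟩ ⟨z, hzA⟩) (t ⟨x, hxA⟩ ⟨y, hyA⟩) with hlt | heq | hlt
      · refine main y z hyA hzA ?_ hlt
        rw [hset]
        ext w
        simp only [mem_insert, mem_singleton]
        tauto
      · exfalso
        have := ht1 ⟨x, hxA⟩ heq
        exact hzy (congrArg Subtype.val this)
      · refine main z y hzA hyA ?_ hlt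
        rw [hset]
        ext w
        simp only [mem_insert, mem_singleton]
        tauto
  calc H.card ≤ (univ.biUnion E).card := card_le_card hsub
    _ ≤ ∑ c, (E c).card := card_biUnion_le
    _ ≤ _ := by
      refine sum_le_sum fun c _ => ?_
      rw [hE]
      refine le_trans (card_union_le _ _) (le_trans (add_le_add card_image_le card_image_le) ?_)
      exact ht3 c.1 c.2

end Pool.Agent.H67.TCT
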